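import Pool.Agent.Helper67.DF.Stmts
import Pool.Agent.Helper67.BT.Basic2

/-!
Project DF (MP_10bc19_gt), row EBL: the Brascamp-Lieb inequality for even functions.   [helper28]
-/

open Finset MeasureTheory

namespace Pool.Agent.Helper28.DF

open Pool.Agent.Helper67.BT (E PG Sp)
open Pool.Agent.Helper67.DF

section aff

variable {k : ℕ}

theorem r2_pos : (0 : ℝ) < √2 := Real.sqrt_pos.2 (by norm_num)

theorem r2_sq : (√2 : ℝ) * √2 = 2 := Real.mul_self_sqrt (by norm_num)

theorem r2_inv_le : (√2 : ℝ)⁻¹ ≤ 1 := by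
  refine inv_le_one_of_one_le₀ ?_
  rw [Real.one_le_sqrt]
  norm_num

theorem norm_xp_le (u z : E k) : ‖xp u z‖ ≤ ‖u‖ + ‖z‖ := by
  unfold xp
  rw [norm_smul, Real.norm_of_nonneg (inv_nonneg.2 r2_pos.le)]
  calc (√2 : ℝ)⁻¹ * ‖u + z‖ ≤ 1 * ‖u + z‖ :=
        mul_le_mul_of_nonneg_right r2_inv_le (norm_nonneg _)
    _ ≤ ‖u‖ + ‖z‖ := by rw [one_mul]; exact norm_add_le _ _

theorem norm_xm_le (u z : E k) : ‖xm u z‖ ≤ ‖u‖ + ‖z‖ := by
  unfold xm
  rw [norm_smul, Real.norm_of_nonneg (inv_nonneg.2 r2_pos.le)]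
  calc (√2 : ℝ)⁻¹ * ‖u - z‖ ≤ 1 * ‖u - z‖ :=
        mul_le_mul_of_nonneg_right r2_inv_le (norm_nonneg _)
    _ ≤ ‖u‖ + ‖z‖ := by rw [one_mul]; exact norm_sub_le _ _

theorem pg_comp {F : E k → ℝ} (hF : PG F) {T : E k → E k} (hT : Continuous T) {B : ℝ}
    (hB : 0 ≤ B) (hTB : ∀ u, ‖T u‖ ≤ ‖u‖ + B) : PG fun u => F (T u) := by
  obtain ⟨hc, C, N, hC, hb⟩ := hF
  refine ⟨hc.comp hT, C * (1 + B) ^ N, N, by positivity, fun u => (hb _).trans ?_⟩
  have h1 : 1 + ‖T u‖ ≤ (1 + B) * (1 + ‖u‖) := by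
    have := hTB u
    have := norm_nonneg u
    nlinarith
  calc C * (1 + ‖T u‖) ^ N ≤ C * ((1 + B) * (1 + ‖u‖)) ^ N :=
        mul_le_mul_of_nonneg_left (pow_le_pow_left₀ (by positivity) h1 N) hC
    _ = C * (1 + B) ^ N * (1 + ‖u‖) ^ N := by rw [mul_pow]; ring

theorem xp_cont (z : E k) : Continuous fun u => xp u z := by unfold xp; fun_prop

theorem xm_cont (z : E k) : Continuous fun u => xm u z := by unfold xm; fun_prop

theorem pg_xp {F : E k → ℝ} (hF : PG F) (z : E k) : PG fun u => F (xp u z) :=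
  pg_comp hF (xp_cont z) (norm_nonneg z) fun u => norm_xp_le u z

theorem pg_xm {F : E k → ℝ} (hF : PG F) (z : E k) : PG fun u => F (xm u z) :=
  pg_comp hF (xm_cont z) (norm_nonneg z) fun u => norm_xm_le u z

theorem xp_add (u h z : E k) : xp (u + h) z = xp u z + (√2)⁻¹ • h := by
  unfold xp
  rw [← smul_add]
  congr 1
  abel

theorem xm_add (u h z : E k) : xm (u + h) z = xm u z + (√2)⁻¹ • h := by
  unfold xm
  rw [← smul_add]
  congr 1
  abel

theorem xp_neg (u z : E k) : xp (-u) z = -xm u z := by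
  unfold xp xm
  rw [← smul_neg]
  congr 1
  abel

theorem xm_neg (u z : E k) : xm (-u) z = -xp u z := by
  unfold xp xm
  rw [← smul_neg]
  congr 1
  abel

end aff

section main

variable {n k : ℕ} {a : Fin n → E k} {c K α : ℝ} {U ψ w : Fin n → ℝ → ℝ}

/-- the rotated remainder estimate -/
theorem th_rot {f : E k → ℝ} {b : Fin n → E k → ℝ} (hα : 0 < α) (h : TH a α f b) (z : E k) :
    TH a α (fun u => f (xp u z) - f (xm u z))
      (fun l u => (b l (xp u z) - b l (xm u z)) / √2) := by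
  intro R
  obtain ⟨C, hC⟩ := h (R + ‖z‖)
  refine ⟨2 * |C|, fun u h hu huh => ?_⟩
  have e1 := hC (xp u z) ((√2)⁻¹ • h)
    ((norm_xp_le u z).trans (by linarith))
    (by rw [← xp_add]; exact (norm_xp_le _ z).trans (by linarith))
  have e2 := hC (xm u z) ((√2)⁻¹ • h)
    ((norm_xm_le u z).trans (by linarith))
    (by rw [← xm_add]; exact (norm_xm_le _ z).trans (by linarith))
  rw [← xp_add] at e1
  rw [← xm_add] at e2
  have hn : ‖(√2 : ℝ)⁻¹ • h‖ ^ (1 + α) ≤ ‖h‖ ^ (1 + α) := by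
    refine Real.rpow_le_rpow (norm_nonneg _) ?_ (by linarith)
    rw [norm_smul, Real.norm_of_nonneg (inv_nonneg.2 r2_pos.le)]
    calc (√2 : ℝ)⁻¹ * ‖h‖ ≤ 1 * ‖h‖ := mul_le_mul_of_nonneg_right r2_inv_le (norm_nonneg _)
      _ = ‖h‖ := one_mul _
  have hn0 : 0 ≤ ‖(√2 : ℝ)⁻¹ • h‖ ^ (1 + α) := Real.rpow_nonneg (norm_nonneg _) _
  have e3 : C * ‖(√2 : ℝ)⁻¹ • h‖ ^ (1 + α) ≤ |C| * ‖h‖ ^ (1 + α) :=
    (mul_le_mul_of_nonneg_right (le_abs_self C) hn0).trans
      (mul_le_mul_of_nonneg_left hn (abs_nonneg C))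
  have e4 : ∑ l, (b l (xp u z) - b l (xm u z)) / √2 * inner ℝ (a l) h =
      ∑ l, b l (xp u z) * inner ℝ (a l) ((√2 : ℝ)⁻¹ • h) -
        ∑ l, b l (xm u z) * inner ℝ (a l) ((√2 : ℝ)⁻¹ • h) := by
    rw [← Finset.sum_sub_distrib]
    refine Finset.sum_congr rfl fun l _ => ?_
    rw [real_inner_smul_right]
    ring
  have e5 : f (xp (u + h) z) - f (xm (u + h) z) - (f (xp u z) - f (xm u z)) -
      ∑ l, (b l (xp u z) - b l (xm u z)) / √2 * inner ℝ (a l) h =
      (f (xp (u + h) z) - f (xp u z) - ∑ l, b l (xp u z) * inner ℝ (a l) ((√2 : ℝ)⁻¹ • h)) -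
      (f (xm (u + h) z) - f (xm u z) - ∑ l, b l (xm u z) * inner ℝ (a l) ((√2 : ℝ)⁻¹ • h)) := by
    rw [e4]
    ring
  show |f (xp (u + h) z) - f (xm (u + h) z) - (f (xp u z) - f (xm u z)) -
      ∑ l, (b l (xp u z) - b l (xm u z)) / √2 * inner ℝ (a l) h| ≤ 2 * |C| * ‖h‖ ^ (1 + α)
  rw [e5]
  refine (abs_sub _ _).trans ?_
  linarith

theorem rW_xp (w : Fin n → ℝ → ℝ) (u z : E k) (l : Fin n) :
    rW w (bb a z) l (inner ℝ (a l) u) =
      (w l (inner ℝ (a l) (xp u z)) + w l (inner ℝ (a l) (xm u z))) / 2 := by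
  have h1 : inner ℝ (a l) (xp u z) = (inner ℝ (a l) u + bb a z l) / √2 := by
    unfold xp bb
    rw [real_inner_smul_right, inner_add_right]
    ring
  have h2 : inner ℝ (a l) (xm u z) = (inner ℝ (a l) u - bb a z l) / √2 := by
    unfold xm bb
    rw [real_inner_smul_right, inner_sub_right]
    ring
  rw [h1, h2]
  rfl

/-- integration over the product, `G` is continuous and dominated -/
theorem int_dom {e : E k → ℝ} (he : Continuous e) (he0 : ∀ x, 0 ≤ e x) {G : E k → E k → ℝ}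
    (hG : Continuous fun q : E k × E k => G q.1 q.2) {A B : E k → ℝ}
    (hA : Integrable fun x => A x * e x) (hB : Integrable fun x => B x * e x)
    (hb : ∀ x y, |G x y| ≤ A x * B y) :
    Integrable fun q : E k × E k => G q.1 q.2 * e q.1 * e q.2 := by
  refine Integrable.mono' (hA.mul_prod hB)
    ((hG.mul (he.comp continuous_fst)).mul (he.comp continuous_snd)).aestronglyMeasurable
    (Filter.Eventually.of_forall fun q => ?_)
  rw [Real.norm_eq_abs, abs_mul, abs_mul, abs_of_nonneg (he0 _), abs_of_nonneg (he0 _)]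
  calc |G q.1 q.2| * e q.1 * e q.2 ≤ A q.1 * B q.2 * e q.1 * e q.2 := by
        refine mul_le_mul_of_nonneg_right (mul_le_mul_of_nonneg_right (hb _ _) (he0 _)) (he0 _)
    _ = A q.1 * e q.1 * (B q.2 * e q.2) := by ring

/-- the symmetric part of a quotient -/
theorem term_le {s t x y c : ℝ} (hc : 0 < c) (hx : c ≤ x) (hy : c ≤ y) :
    (s - t) ^ 2 / (x + y) ≤ s ^ 2 * y⁻¹ + x⁻¹ * t ^ 2 - 2 * (s * t / (x + y)) := by
  have hx0 : 0 < x := hc.trans_le hx
  have hy0 : 0 < y := hc.trans_le hy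
  have h1 : s ^ 2 / (x + y) ≤ s ^ 2 * y⁻¹ := by
    rw [← div_eq_mul_inv]
    exact div_le_div_of_nonneg_left (sq_nonneg s) hy0 (by linarith)
  have h2 : t ^ 2 / (x + y) ≤ x⁻¹ * t ^ 2 := by
    rw [mul_comm, ← div_eq_mul_inv]
    exact div_le_div_of_nonneg_left (sq_nonneg t) hx0 (by linarith)
  have h3 : (s - t) ^ 2 / (x + y) = s ^ 2 / (x + y) + t ^ 2 / (x + y) - 2 * (s * t / (x + y)) := by
    ring
  linarith

end main

theorem st_EBL (hBLL : ST_BLL) (hROE : ST_ROE) (hCLR : ST_CLR) (hPB : ST_PB) (hIG : ST_IG) :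
    ST_EBL := by
  intro n k a c K α U ψ w f b hSp hPF hf hb hTH hfe hbo
  have hc0 : 0 < c := hPF.c0
  obtain ⟨δ, hδ, hIG'⟩ := hIG n k a hSp c hc0
  obtain ⟨_, hVc, hVe, hPGw, hint, hZ⟩ := hIG' K α U ψ w hPF
  set e : E k → ℝ := fun x => Real.exp (-(VV a U x)) with he
  have hec : Continuous e := Real.continuous_exp.comp hVc.neg
  have he0 : ∀ x, 0 ≤ e x := fun x => (Real.exp_pos _).le
  have hee : ∀ x, e (-x) = e x := fun x => by simp only [he]; rw [hVe]
  have hw0 : ∀ l t, 0 < w l t := fun l t => hc0.trans_le (hPF.lo l t)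
  have hfc : Continuous f := hf.1
  have hwc : ∀ l, Continuous (w l) := fun l => (hPB n c K α U ψ w hPF l).2.2.1
  have hwe : ∀ l t, w l (-t) = w l t := fun l => (hPB n c K α U ψ w hPF l).2.2.2.2.1
  have PG1 : PG (fun _ : E k => (1 : ℝ)) := Pool.Agent.Helper67.BT.PG_const 1
  -- the inequality for fixed `z`
  have hz : ∀ z : E k,
      (J a (rU U (bb a z)) fun u => (f (xp u z) - f (xm u z)) ^ 2) ≤
      J a (rU U (bb a z)) fun u => ∑ l, (b l (xp u z) - b l (xm u z)) ^ 2 /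
        (w l (inner ℝ (a l) (xp u z)) + w l (inner ℝ (a l) (xm u z))) := by
    intro z
    have hPF' := hCLR n c K α U ψ w (bb a z) hPF
    obtain ⟨δ', hδ', hIG2⟩ := hIG n k a hSp c hc0
    obtain ⟨_, hVc', hVe', hPGw', hint', hZ'⟩ := hIG2 _ _ _ _ _ hPF'
    have h1 := hBLL n k a c (K / 2 ^ (α / 2)) α (rU U (bb a z)) (rP ψ (bb a z)) (rW w (bb a z))
      (fun u => f (xp u z) - f (xm u z)) (fun l u => (b l (xp u z) - b l (xm u z)) / √2)
      hSp hPF' (Pool.Agent.Helper67.BT.PG_sub (pg_xp hf z) (pg_xm hf z))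
      (fun l => Pool.Agent.Helper67.BT.PG_div_const
        (Pool.Agent.Helper67.BT.PG_sub (pg_xp (hb l) z) (pg_xm (hb l) z)) _)
      (th_rot hPF.a0 hTH z)
    have h2 : (J a (rU U (bb a z)) fun u => f (xp u z) - f (xm u z)) = 0 := by
      have h3 : (J a (rU U (bb a z)) fun u => f (xp u z) - f (xm u z)) =
          -(J a (rU U (bb a z)) fun u => f (xp u z) - f (xm u z)) := by
        unfold J
        rw [← integral_neg]
        refine (integral_neg_eq_self (fun u : E k => (f (xp u z) - f (xm u z)) *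
          Real.exp (-(VV a (rU U (bb a z)) u))) volume).symm.trans ?_
        refine integral_congr_ae (Filter.Eventually.of_forall fun u => ?_)
        simp only [hVe', xp_neg, xm_neg, hfe]
        ring
      linarith
    rw [h2] at h1
    have h4 : (J a (rU U (bb a z)) fun x => ∑ l, ((b l (xp x z) - b l (xm x z)) / √2) ^ 2 /
        rW w (bb a z) l (inner ℝ (a l) x)) =
        J a (rU U (bb a z)) fun u => ∑ l, (b l (xp u z) - b l (xm u z)) ^ 2 /
        (w l (inner ℝ (a l) (xp u z)) + w l (inner ℝ (a l) (xm u z))) := by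
      refine congrArg (J a (rU U (bb a z))) (funext fun u => ?_)
      refine Finset.sum_congr rfl fun l _ => ?_
      rw [rW_xp, div_pow, Real.sq_sqrt (by norm_num), div_div_div_eq]
      rw [show (2 : ℝ) * (w l (inner ℝ (a l) (xp u z)) + w l (inner ℝ (a l) (xm u z))) =
        (w l (inner ℝ (a l) (xp u z)) + w l (inner ℝ (a l) (xm u z))) * 2 by ring,
        mul_div_mul_right _ _ (by norm_num : (2 : ℝ) ≠ 0)]
    rw [h4] at h1
    have h5 : (0 : ℝ) ^ 2 = 0 := by norm_num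
    rw [h5, sub_zero] at h1
    exact le_of_mul_le_mul_left h1 hZ'
  -- integrability
  have hi : ∀ F : E k → ℝ, PG F → Integrable fun x => F x * e x := hint
  have hi1 := hi _ PG1
  have hif := hi _ hf
  have hif2 := hi _ (Pool.Agent.Helper67.BT.PG_pow hf 2)
  have hib2 := fun l => hi _ (Pool.Agent.Helper67.BT.PG_pow (hb l) 2)
  have hibb := fun l => hi _ (Pool.Agent.Helper67.BT.PG_abs (hb l))
  have hiw := fun l => hi _ (hPGw l).2.2
  -- the left side
  have hL1 : ∀ q : E k × E k, (f q.1 - f q.2) ^ 2 * e q.1 * e q.2 =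
      (f q.1 ^ 2 * e q.1) * (1 * e q.2) + (1 * e q.1) * (f q.2 ^ 2 * e q.2) -
        2 * ((f q.1 * e q.1) * (f q.2 * e q.2)) := fun q => by ring
  have hL2 : Integrable fun q : E k × E k => (f q.1 - f q.2) ^ 2 * e q.1 * e q.2 := by
    simp_rw [hL1]
    exact ((hif2.mul_prod hi1).add (hi1.mul_prod hif2)).sub ((hif.mul_prod hif).const_mul 2)
  have hL3 : ∫ q : E k × E k, (f q.1 - f q.2) ^ 2 * e q.1 * e q.2 =
      2 * (J a U (fun _ => 1) * J a U (fun x => f x ^ 2) - J a U f ^ 2) := by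
    have p1 : ∫ q : E k × E k, (f q.1 ^ 2 * e q.1) * (1 * e q.2) =
        J a U (fun x => f x ^ 2) * J a U (fun _ => 1) :=
      integral_prod_mul (fun x => f x ^ 2 * e x) (fun x => 1 * e x)
    have p2 : ∫ q : E k × E k, (1 * e q.1) * (f q.2 ^ 2 * e q.2) =
        J a U (fun _ => 1) * J a U (fun x => f x ^ 2) :=
      integral_prod_mul (fun x => 1 * e x) (fun x => f x ^ 2 * e x)
    have p3 : ∫ q : E k × E k, (f q.1 * e q.1) * (f q.2 * e q.2) = J a U f * J a U f :=
      integral_prod_mul (fun x => f x * e x) (fun x => f x * e x)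
    have q1 : Integrable fun q : E k × E k => (f q.1 ^ 2 * e q.1) * (1 * e q.2) :=
      hif2.mul_prod hi1
    have q2 : Integrable fun q : E k × E k => (1 * e q.1) * (f q.2 ^ 2 * e q.2) :=
      hi1.mul_prod hif2
    have q3 : Integrable fun q : E k × E k => 2 * ((f q.1 * e q.1) * (f q.2 * e q.2)) :=
      (hif.mul_prod hif).const_mul 2
    have q4 : Integrable fun q : E k × E k => (f q.1 ^ 2 * e q.1) * (1 * e q.2) +
      (1 * e q.1) * (f q.2 ^ 2 * e q.2) := q1.add q2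
    simp_rw [hL1]
    rw [integral_sub q4 q3, integral_add q1 q2, integral_const_mul, p1, p2, p3]
    ring
  -- the right side
  have hcw : ∀ l, Continuous fun x : E k => w l (inner ℝ (a l) x) := fun l => (hPGw l).2.1.1
  have hcd : ∀ l, Continuous fun q : E k × E k =>
      w l (inner ℝ (a l) q.1) + w l (inner ℝ (a l) q.2) := fun l =>
    ((hcw l).comp continuous_fst).add ((hcw l).comp continuous_snd)
  have hd0 : ∀ l (q : E k × E k), w l (inner ℝ (a l) q.1) + w l (inner ℝ (a l) q.2) ≠ 0 :=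
    fun l q => (add_pos (hw0 _ _) (hw0 _ _)).ne'
  have hR1 : ∀ l, Integrable fun q : E k × E k => (b l q.1 * b l q.2 /
      (w l (inner ℝ (a l) q.1) + w l (inner ℝ (a l) q.2))) * e q.1 * e q.2 := by
    intro l
    have hbc : Continuous (b l) := (hb l).1
    refine int_dom hec he0 (G := fun x y => b l x * b l y /
      (w l (inner ℝ (a l) x) + w l (inner ℝ (a l) y))) ?_ (A := fun x => c⁻¹ * |b l x|)
      (B := fun x => |b l x|) ?_ (hibb l) ?_
    · exact ((hbc.comp continuous_fst).mul (hbc.comp continuous_snd)).div (hcd l) (hd0 l)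
    · simp_rw [mul_assoc]
      exact (hibb l).const_mul _
    · intro x y
      rw [abs_div, abs_mul, abs_of_pos (add_pos (hw0 l _) (hw0 l _))]
      have h1 : c ≤ w l (inner ℝ (a l) x) + w l (inner ℝ (a l) y) :=
        (hPF.lo l _).trans (le_add_of_nonneg_right (hw0 l _).le)
      calc |b l x| * |b l y| / (w l (inner ℝ (a l) x) + w l (inner ℝ (a l) y))
          ≤ |b l x| * |b l y| / c := div_le_div_of_nonneg_left (by positivity) hc0 h1
        _ = c⁻¹ * |b l x| * |b l y| := by rw [div_eq_mul_inv]; ring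
  have hR2 : ∀ l, ∫ q : E k × E k, (b l q.1 * b l q.2 /
      (w l (inner ℝ (a l) q.1) + w l (inner ℝ (a l) q.2))) * e q.1 * e q.2 = 0 := by
    intro l
    refine (integral_prod _ (hR1 l)).trans ?_
    have h1 : ∀ x : E k, ∫ y : E k, (b l x * b l y /
      (w l (inner ℝ (a l) x) + w l (inner ℝ (a l) y))) * e x * e y = 0 := by
      intro x
      have h2 : ∫ y : E k, (b l x * b l y /
          (w l (inner ℝ (a l) x) + w l (inner ℝ (a l) y))) * e x * e y =
          -∫ y : E k, (b l x * b l y /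
          (w l (inner ℝ (a l) x) + w l (inner ℝ (a l) y))) * e x * e y := by
        rw [← integral_neg]
        refine (integral_neg_eq_self (fun y : E k => (b l x * b l y /
          (w l (inner ℝ (a l) x) + w l (inner ℝ (a l) y))) * e x * e y) volume).symm.trans ?_
        refine integral_congr_ae (Filter.Eventually.of_forall fun y => ?_)
        simp only [hbo, hee, inner_neg_right, hwe]
        ring
      linarith
    simp only [h1, integral_zero]
  have hR3 : ∀ l (q : E k × E k), (b l q.1 - b l q.2) ^ 2 /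
      (w l (inner ℝ (a l) q.1) + w l (inner ℝ (a l) q.2)) * e q.1 * e q.2 ≤
      (b l q.1 ^ 2 * e q.1) * ((w l (inner ℝ (a l) q.2))⁻¹ * e q.2) +
      ((w l (inner ℝ (a l) q.1))⁻¹ * e q.1) * (b l q.2 ^ 2 * e q.2) -
      2 * ((b l q.1 * b l q.2 /
      (w l (inner ℝ (a l) q.1) + w l (inner ℝ (a l) q.2))) * e q.1 * e q.2) := by
    intro l q
    have h1 := term_le (s := b l q.1) (t := b l q.2) hc0 (hPF.lo l (inner ℝ (a l) q.1))
      (hPF.lo l (inner ℝ (a l) q.2))
    have h2 := mul_le_mul_of_nonneg_right (mul_le_mul_of_nonneg_right h1 (he0 q.1)) (he0 q.2)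
    refine h2.trans (le_of_eq ?_)
    ring
  have hR4 : ∀ l, Integrable fun q : E k × E k => (b l q.1 - b l q.2) ^ 2 /
      (w l (inner ℝ (a l) q.1) + w l (inner ℝ (a l) q.2)) * e q.1 * e q.2 := by
    intro l
    have hbc : Continuous (b l) := (hb l).1
    have h1 : Integrable fun q : E k × E k =>
      (b l q.1 ^ 2 * e q.1) * ((w l (inner ℝ (a l) q.2))⁻¹ * e q.2) +
      ((w l (inner ℝ (a l) q.1))⁻¹ * e q.1) * (b l q.2 ^ 2 * e q.2) -
      2 * ((b l q.1 * b l q.2 /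
      (w l (inner ℝ (a l) q.1) + w l (inner ℝ (a l) q.2))) * e q.1 * e q.2) :=
      (((hib2 l).mul_prod (hiw l)).add ((hiw l).mul_prod (hib2 l))).sub ((hR1 l).const_mul 2)
    refine Integrable.mono' h1 ?_ (Filter.Eventually.of_forall fun q => ?_)
    · refine Continuous.aestronglyMeasurable ?_
      exact ((((hbc.comp continuous_fst).sub (hbc.comp continuous_snd)).pow 2).div (hcd l)
        (hd0 l)).mul (hec.comp continuous_fst) |>.mul (hec.comp continuous_snd)
    · rw [Real.norm_of_nonneg]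
      · exact hR3 l q
      · exact mul_nonneg (mul_nonneg (div_nonneg (sq_nonneg _)
          (add_pos (hw0 _ _) (hw0 _ _)).le) (he0 _)) (he0 _)
  have hR5 : ∀ l, ∫ q : E k × E k, (b l q.1 - b l q.2) ^ 2 /
      (w l (inner ℝ (a l) q.1) + w l (inner ℝ (a l) q.2)) * e q.1 * e q.2 ≤
      2 * (J a U (fun x => b l x ^ 2) * J a U fun x => (w l (inner ℝ (a l) x))⁻¹) := by
    intro l
    have p1 : ∫ q : E k × E k, (b l q.1 ^ 2 * e q.1) * ((w l (inner ℝ (a l) q.2))⁻¹ * e q.2) =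
        J a U (fun x => b l x ^ 2) * J a U fun x => (w l (inner ℝ (a l) x))⁻¹ :=
      integral_prod_mul (fun x => b l x ^ 2 * e x) (fun x => (w l (inner ℝ (a l) x))⁻¹ * e x)
    have p2 : ∫ q : E k × E k, ((w l (inner ℝ (a l) q.1))⁻¹ * e q.1) * (b l q.2 ^ 2 * e q.2) =
        (J a U fun x => (w l (inner ℝ (a l) x))⁻¹) * J a U (fun x => b l x ^ 2) :=
      integral_prod_mul (fun x => (w l (inner ℝ (a l) x))⁻¹ * e x) (fun x => b l x ^ 2 * e x)
    have q1 : Integrable fun q : E k × E k =>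
      (b l q.1 ^ 2 * e q.1) * ((w l (inner ℝ (a l) q.2))⁻¹ * e q.2) := (hib2 l).mul_prod (hiw l)
    have q2 : Integrable fun q : E k × E k =>
      ((w l (inner ℝ (a l) q.1))⁻¹ * e q.1) * (b l q.2 ^ 2 * e q.2) := (hiw l).mul_prod (hib2 l)
    have q4 : Integrable fun q : E k × E k =>
      (b l q.1 ^ 2 * e q.1) * ((w l (inner ℝ (a l) q.2))⁻¹ * e q.2) +
      ((w l (inner ℝ (a l) q.1))⁻¹ * e q.1) * (b l q.2 ^ 2 * e q.2) := q1.add q2
    have q3 : Integrable fun q : E k × E k => 2 * ((b l q.1 * b l q.2 /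
      (w l (inner ℝ (a l) q.1) + w l (inner ℝ (a l) q.2))) * e q.1 * e q.2) :=
      (hR1 l).const_mul 2
    refine (integral_mono (hR4 l) (q4.sub q3) (hR3 l)).trans (le_of_eq ?_)
    refine (integral_sub q4 q3).trans ?_
    rw [integral_add q1 q2, integral_const_mul, hR2 l, p1, p2]
    ring
  have hR6 : ∀ q : E k × E k, (∑ l, (b l q.1 - b l q.2) ^ 2 /
      (w l (inner ℝ (a l) q.1) + w l (inner ℝ (a l) q.2))) * e q.1 * e q.2 =
      ∑ l, (b l q.1 - b l q.2) ^ 2 /
      (w l (inner ℝ (a l) q.1) + w l (inner ℝ (a l) q.2)) * e q.1 * e q.2 := by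
    intro q
    rw [Finset.sum_mul, Finset.sum_mul]
  have hR7 : Integrable fun q : E k × E k => (∑ l, (b l q.1 - b l q.2) ^ 2 /
      (w l (inner ℝ (a l) q.1) + w l (inner ℝ (a l) q.2))) * e q.1 * e q.2 := by
    simp_rw [hR6]
    exact integrable_finsetSum _ fun l _ => hR4 l
  obtain ⟨i1, e1⟩ := hROE n k a c K α U ψ w hSp hPF (fun x y => (f x - f y) ^ 2) hL2
  obtain ⟨i2, e2⟩ := hROE n k a c K α U ψ w hSp hPF (fun x y => ∑ l, (b l x - b l y) ^ 2 /
      (w l (inner ℝ (a l) x) + w l (inner ℝ (a l) y))) hR7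
  have key := integral_mono i1 i2 hz
  have key2 : ∫ q : E k × E k, (f q.1 - f q.2) ^ 2 * e q.1 * e q.2 ≤
      ∫ q : E k × E k, (∑ l, (b l q.1 - b l q.2) ^ 2 /
      (w l (inner ℝ (a l) q.1) + w l (inner ℝ (a l) q.2))) * e q.1 * e q.2 := by
    calc _ = _ := e1
      _ ≤ _ := key
      _ = _ := e2.symm
  have key3 : ∫ q : E k × E k, (∑ l, (b l q.1 - b l q.2) ^ 2 /
      (w l (inner ℝ (a l) q.1) + w l (inner ℝ (a l) q.2))) * e q.1 * e q.2 ≤
      ∑ l, 2 * (J a U (fun x => b l x ^ 2) * J a U fun x => (w l (inner ℝ (a l) x))⁻¹) := by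
    simp_rw [hR6]
    rw [integral_finsetSum _ fun l _ => hR4 l]
    exact Finset.sum_le_sum fun l _ => hR5 l
  rw [hL3] at key2
  rw [← Finset.mul_sum] at key3
  linarith

end Pool.Agent.Helper28.DF
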