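import Pool.Agent.Helper67.DF.Stmts
import Pool.Agent.Helper67.BT.Basic2

/-!
Project DF (MP_10bc19_gt), row LM: moments of linear forms.   [helper28]
-/

open Finset MeasureTheory

namespace Pool.Agent.Helper28.DF

open Pool.Agent.Helper67.BT (E PG Sp)
open Pool.Agent.Helper67.DF

/-- integrals of even functions -/
theorem int_even {h : ℝ → ℝ} (he : ∀ t, h (-t) = h t) :
    ∫ t, h t = 2 * ∫ t in Set.Ioi (0 : ℝ), h t := by
  rw [← integral_comp_abs]
  refine integral_congr_ae (Filter.Eventually.of_forall fun t => ?_)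
  rcases abs_cases t with ⟨h1, _⟩ | ⟨h1, _⟩
  · simp only [h1]
  · simp only [h1, he]

/-- a probability density on the half line -/
theorem lm_half {g : ℝ → ℝ} (hgm : Measurable g) (hg0 : ∀ t, 0 < t → 0 < g t)
    (hlc : ConcaveOn ℝ (Set.Ioi 0) (fun t => Real.log (g t)))
    (hgi : IntegrableOn g (Set.Ioi 0)) (hg1 : ∫ t in Set.Ioi (0 : ℝ), g t = 1) (hCOL : ST_COL)
    (q : ℕ) (hq : 1 ≤ q) (h1 : IntegrableOn (fun t => t ^ q * g t) (Set.Ioi 0))
    (h2 : IntegrableOn (fun t => t ^ (2 * q) * g t) (Set.Ioi 0)) :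
    ∫ t in Set.Ioi (0 : ℝ), t ^ (2 * q) * g t ≤
      ((2 * q).factorial : ℝ) / (q.factorial : ℝ) ^ 2 *
        (∫ t in Set.Ioi (0 : ℝ), t ^ q * g t) ^ 2 := by
  set M := ∫ t in Set.Ioi (0 : ℝ), t ^ q * g t with hM
  have hM0 : 0 < M := by
    rw [hM, setIntegral_pos_iff_support_of_nonneg_ae _ h1]
    · have h3 : Set.Ioi (0 : ℝ) ⊆ (Function.support fun t => t ^ q * g t) ∩ Set.Ioi 0 :=
        fun t ht => ⟨(mul_pos (pow_pos ht q) (hg0 t ht)).ne', ht⟩
      refine lt_of_lt_of_le ?_ (measure_mono h3)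
      rw [Real.volume_Ioi]
      exact ENNReal.zero_lt_top
    · refine (ae_restrict_iff' measurableSet_Ioi).2 (Filter.Eventually.of_forall fun t ht => ?_)
      exact (mul_pos (pow_pos ht q) (hg0 t ht)).le
  have hΓ : Real.Gamma (1 + (q : ℝ)) = q.factorial := by
    rw [add_comm]
    exact Real.Gamma_nat_eq_factorial q
  have hf0 : (0 : ℝ) < (q.factorial : ℝ) := by exact_mod_cast q.factorial_pos
  have e1 : ∀ t ∈ Set.Ioi (0 : ℝ), t ^ (q : ℝ) * g t = t ^ q * g t := fun t _ => by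
    rw [Real.rpow_natCast]
  have e2 : ∀ t ∈ Set.Ioi (0 : ℝ), (t ^ (q : ℝ) / M) ^ 2 * g t =
      (M ^ 2)⁻¹ * (t ^ (2 * q) * g t) := fun t _ => by
    rw [Real.rpow_natCast, div_pow, ← pow_mul, mul_comm q 2]
    ring
  have e3 : ∀ t ∈ Set.Ioi (0 : ℝ), (t ^ (q : ℝ) / Real.Gamma (1 + (q : ℝ))) ^ 2 * Real.exp (-t) =
      ((q.factorial : ℝ) ^ 2)⁻¹ * (Real.exp (-t) * t ^ ((((2 * q : ℕ) : ℝ) + 1) - 1)) :=
    fun t _ => by
      rw [hΓ, Real.rpow_natCast, div_pow, ← pow_mul, mul_comm q 2, add_sub_cancel_right,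
        Real.rpow_natCast]
      ring
  have i3 : IntegrableOn (fun t => Real.exp (-t) * t ^ ((((2 * q : ℕ) : ℝ) + 1) - 1))
      (Set.Ioi (0 : ℝ)) := Real.GammaIntegral_convergent (by positivity)
  have key := hCOL g (fun u => u ^ 2) (q : ℝ) M (by exact_mod_cast hq) hgm hg0 hlc hgi hg1
    ((integrableOn_congr_fun e1 measurableSet_Ioi).2 h1)
    (by rw [hM]; exact (setIntegral_congr_fun measurableSet_Ioi e1).symm)
    ((convexOn_pow 2).subset (fun t (ht : 0 < t) => ht.le) (convex_Ioi 0))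
    ((integrableOn_congr_fun e2 measurableSet_Ioi).2 (h2.const_mul _))
    ((integrableOn_congr_fun e3 measurableSet_Ioi).2 (i3.const_mul _))
  rw [setIntegral_congr_fun measurableSet_Ioi e2, setIntegral_congr_fun measurableSet_Ioi e3,
    integral_const_mul, integral_const_mul, ← Real.Gamma_eq_integral (by positivity),
    Real.Gamma_nat_eq_factorial] at key
  have hM2 : (0 : ℝ) < M ^ 2 := by positivity
  rw [inv_mul_le_iff₀ hM2] at key
  refine key.trans (le_of_eq ?_)
  ring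

theorem st_LM (hMAR : ST_MAR) (hCOL : ST_COL) (hIG : ST_IG) : ST_LM := by
  intro n k a c K α U ψ w e hSp hPF
  rcases eq_or_ne e 0 with rfl | he
  · simp [Av, J]
  obtain ⟨g, hgm, hg0, hge, hlc, hgi, hF⟩ := hMAR n k a c K α U ψ w e hSp hPF he
  obtain ⟨δ, hδ, hIG'⟩ := hIG n k a hSp c hPF.c0
  obtain ⟨_, _, _, _, hint, hZ⟩ := hIG' K α U ψ w hPF
  have hZ1 : J a U (fun _ => 1) = ∫ t, g t := by
    rw [(hF (fun _ => 1) measurable_const).2]
    simp
  have hZ2 : J a U (fun _ => 1) = 2 * ∫ t in Set.Ioi (0 : ℝ), g t := by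
    rw [hZ1, int_even hge]
  set Z := J a U (fun _ => 1) with hZd
  set g' : ℝ → ℝ := fun t => 2 / Z * g t with hg'
  have hz0 : 0 < 2 / Z := by positivity
  -- integrability of the moments
  have hm : ∀ j : ℕ, Integrable fun t => |t| ^ j * g t := by
    intro j
    rw [(hF (fun t => |t| ^ j) (by fun_prop)).1]
    exact hint _ (Pool.Agent.Helper67.BT.PG_pow
      (Pool.Agent.Helper67.BT.PG_abs (Pool.Agent.Helper67.BT.PG_inner e)) j)
  have hm' : ∀ j : ℕ, IntegrableOn (fun t => t ^ j * g' t) (Set.Ioi 0) := by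
    intro j
    have h1 : ∀ t ∈ Set.Ioi (0 : ℝ), t ^ j * g' t = 2 / Z * (|t| ^ j * g t) := fun t ht => by
      rw [abs_of_pos ht, hg']
      ring
    exact (integrableOn_congr_fun h1 measurableSet_Ioi).2 ((hm j).integrableOn.const_mul _)
  -- the averages
  have hav : ∀ j : ℕ, Av a U (fun x => |inner ℝ e x| ^ j) =
      ∫ t in Set.Ioi (0 : ℝ), t ^ j * g' t := by
    intro j
    have h1 := (hF (fun t => |t| ^ j) (by fun_prop)).2
    unfold Av
    rw [h1, int_even (h := fun t => |t| ^ j * g t) (fun t => by rw [abs_neg, hge]), ← hZd]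
    have h2 : ∀ t ∈ Set.Ioi (0 : ℝ), t ^ j * g' t = 2 / Z * (|t| ^ j * g t) := fun t ht => by
      rw [abs_of_pos ht, hg']
      ring
    rw [setIntegral_congr_fun measurableSet_Ioi h2, integral_const_mul]
    ring
  have hlc' : ConcaveOn ℝ (Set.Ioi 0) (fun t => Real.log (g' t)) := by
    have h1 : (fun t => Real.log (g' t)) = fun t => Real.log (2 / Z) + Real.log (g t) := by
      funext t
      rw [hg']
      exact Real.log_mul hz0.ne' (hg0 t).ne'
    rw [h1]
    exact (concaveOn_const _ (convex_Ioi 0)).add (hlc.subset (Set.subset_univ _) (convex_Ioi 0))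
  have hg1 : ∫ t in Set.Ioi (0 : ℝ), g' t = 1 := by
    rw [hg', integral_const_mul]
    rw [hZ2]
    have : (∫ t in Set.Ioi (0 : ℝ), g t) ≠ 0 := by
      intro h
      rw [h, mul_zero] at hZ2
      exact hZ.ne' hZ2
    field_simp
  have core := fun q hq => lm_half (g := g') (hgm.const_mul _)
    (fun t _ => mul_pos hz0 (hg0 t)) hlc' (hgi.integrableOn.const_mul _) hg1 hCOL q hq (hm' q)
    (hm' (2 * q))
  constructor
  · have h1 := core 1 le_rfl
    rw [← hav, ← hav] at h1
    simpa using h1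
  · have h1 := core 2 (by norm_num)
    rw [← hav, ← hav] at h1
    have h2 : (fun x : E k => |inner ℝ e x| ^ (2 * 2)) = fun x => inner ℝ e x ^ 4 := by
      funext x
      rw [show 2 * 2 = 4 by norm_num, ← abs_pow]
      exact abs_of_nonneg (by positivity)
    have h3 : (fun x : E k => |inner ℝ e x| ^ 2) = fun x => inner ℝ e x ^ 2 := by
      funext x
      exact sq_abs _
    rw [h2, h3] at h1
    refine h1.trans (le_of_eq ?_)
    norm_num [Nat.factorial]

end Pool.Agent.Helper28.DF
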